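import Pool.Agent.H24R2.DZ.Spec
import Pool.Agent.W186.LH.Fac

set_option autoImplicit false

/-! The number of zeros at a good point. -/

namespace Pool.Agent.W32.SD

open Complex Filter Topology MeasureTheory Set
open Pool.Agent.H24R2.DZ

lemma diff_iter {f : ℂ → ℂ} (hf : Differentiable ℂ f) (n : ℕ) :
    Differentiable ℂ (iteratedDeriv n f) :=
  (hf.contDiff (n := ⊤)).differentiable_iteratedDeriv n (by exact_mod_cast WithTop.coe_lt_top _)

lemma iter_affine {f : ℂ → ℂ} (hf : Differentiable ℂ f) (A r : ℂ) (n : ℕ) :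
    iteratedDeriv n (fun z => f (A + r * z)) = fun z => r ^ n * iteratedDeriv n f (A + r * z) := by
  induction n with
  | zero =>
    funext z
    simp
  | succ n ih =>
    rw [iteratedDeriv_succ, ih]
    funext z
    have h1 : HasDerivAt (fun z : ℂ => A + r * z) r z := by
      have := ((hasDerivAt_id z).const_mul r).const_add A
      exact this.congr_deriv (mul_one _)
    have h2 : HasDerivAt (iteratedDeriv n f) (deriv (iteratedDeriv n f) (A + r * z)) (A + r * z) :=
      (diff_iter hf n _).hasDerivAt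
    have h3 := (h2.comp z h1).const_mul (r ^ n)
    have h4 : deriv (fun z => r ^ n * iteratedDeriv n f (A + r * z)) z =
        r ^ n * (deriv (iteratedDeriv n f) (A + r * z) * r) := h3.deriv
    rw [h4, iteratedDeriv_succ]
    ring

/-- growth along a segment -/
lemma grow {a η : ℝ} {F : ℂ → ℂ} (ha : 0 ≤ a) (hη : η ≤ 1) (h : NN a η F) (w : ℂ)
    (hw : 1 / 1000 ≤ w.re) (hw2 : ‖w‖ ≤ 20) : ‖F w‖ ≤ ‖F 3‖ * Real.exp (2 * a * ‖w - 3‖) := by
  have hseg : ∀ t : ℝ, 0 ≤ t → t ≤ 1 →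
      1 / 1000 ≤ (3 + (t : ℂ) * (w - 3)).re ∧ ‖3 + (t : ℂ) * (w - 3)‖ ≤ 20 := by
    intro t ht ht1
    constructor
    · have : (3 + (t : ℂ) * (w - 3)).re = 3 + t * (w.re - 3) := by simp
      rw [this]
      nlinarith
    · have e : 3 + (t : ℂ) * (w - 3) = ((1 - t : ℝ) : ℂ) * 3 + ((t : ℝ) : ℂ) * w := by
        push_cast; ring
      rw [e]
      refine (norm_add_le _ _).trans ?_
      rw [norm_mul, norm_mul, Complex.norm_real, Complex.norm_real, Real.norm_of_nonneg ht,
        Real.norm_of_nonneg (by linarith : (0:ℝ) ≤ 1 - t)]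
      have h3 : ‖(3 : ℂ)‖ = 3 := by simp
      rw [h3]
      nlinarith
  have hd : ∀ t : ℝ, HasDerivAt (fun t : ℝ => F (3 + (t : ℂ) * (w - 3)))
      (deriv F (3 + (t : ℂ) * (w - 3)) * (w - 3)) t := by
    intro t
    have h1 : HasDerivAt (fun t : ℝ => 3 + (t : ℂ) * (w - 3)) (w - 3) t := by
      have := ((Complex.ofRealCLM.hasDerivAt (x := t)).mul_const (w - 3)).const_add 3
      refine this.congr_deriv ?_
      simp
    exact (h.diff _).hasDerivAt.comp t h1
  have key := norm_le_gronwallBound_of_norm_deriv_right_le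
    (f := fun t : ℝ => F (3 + (t : ℂ) * (w - 3)))
    (f' := fun t : ℝ => deriv F (3 + (t : ℂ) * (w - 3)) * (w - 3)) (δ := ‖F 3‖)
    (K := 2 * a * ‖w - 3‖) (ε := 0) (a := 0) (b := 1)
    (fun t _ => (hd t).continuousAt.continuousWithinAt) (fun t _ => (hd t).hasDerivWithinAt)
    (by simp) ?_ 1 ⟨zero_le_one, le_refl _⟩
  · rw [gronwallBound_ε0] at key
    simpa using key
  · intro t ht
    obtain ⟨h1, h2⟩ := hseg t ht.1 ht.2.le
    obtain ⟨h3, h4⟩ := h.far _ h1 h2
    have e : deriv F (3 + (t : ℂ) * (w - 3)) =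
        logDeriv F (3 + (t : ℂ) * (w - 3)) * F (3 + (t : ℂ) * (w - 3)) := by
      rw [logDeriv_apply, div_mul_cancel₀ _ h3]
    have h5 : ‖logDeriv F (3 + (t : ℂ) * (w - 3))‖ ≤ 2 * a := by
      calc ‖logDeriv F (3 + (t : ℂ) * (w - 3))‖ =
          ‖(logDeriv F (3 + (t : ℂ) * (w - 3)) - a) + a‖ := by rw [sub_add_cancel]
        _ ≤ _ := norm_add_le _ _
        _ ≤ η * a + a := by
            rw [Complex.norm_real, Real.norm_of_nonneg ha]
            exact add_le_add_left h4 _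
        _ ≤ 2 * a := by nlinarith
    rw [add_zero, e, norm_mul, norm_mul]
    have h6 : 0 ≤ ‖F (3 + (t : ℂ) * (w - 3))‖ := norm_nonneg _
    have h7 : 0 ≤ ‖w - 3‖ := norm_nonneg _
    calc ‖logDeriv F (3 + (t : ℂ) * (w - 3))‖ * ‖F (3 + (t : ℂ) * (w - 3))‖ * ‖w - 3‖
        ≤ (2 * a) * ‖F (3 + (t : ℂ) * (w - 3))‖ * ‖w - 3‖ :=
          mul_le_mul_of_nonneg_right (mul_le_mul_of_nonneg_right h5 h6) h7
      _ = _ := by ring

lemma norm3 {w : ℂ} (hw : ‖w‖ ≤ 14) : ‖w - 3‖ ≤ 17 := by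
  refine (norm_sub_le _ _).trans ?_
  have h3 : ‖(3 : ℂ)‖ = 3 := by simp
  rw [h3]; linarith

lemma big {a η : ℝ} {F : ℂ → ℂ} (ha : 0 ≤ a) (hη : η ≤ 1) (h : NN a η F) (w : ℂ)
    (hw : ‖w‖ ≤ 14) : ‖F w‖ ≤ ‖F 3‖ * Real.exp (34 * a) := by
  have hr : ∀ w : ℂ, 1 / 1000 ≤ w.re → ‖w‖ ≤ 14 → ‖F w‖ ≤ ‖F 3‖ * Real.exp (34 * a) := by
    intro w h1 h2
    refine (grow ha hη h w h1 (by linarith)).trans ?_
    refine mul_le_mul_of_nonneg_left (Real.exp_le_exp.2 ?_) (norm_nonneg _)
    have := norm3 h2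
    nlinarith
  rcases le_or_gt (1 / 1000) w.re with h1 | h1
  · exact hr w h1 hw
  · rcases le_or_gt w.re (-(1 / 1000)) with h2 | h2
    · have h3 := h.symm w
      have h4 := hr (-((starRingEnd ℂ) w)) (by simp; linarith) (by rw [norm_neg, Complex.norm_conj]; exact hw)
      rw [h3, Complex.norm_conj] at h4
      exact h4
    · have h3 := h.near w (abs_le.2 ⟨h2.le, h1.le⟩) (by linarith)
      have h4 := hr 1 (by simp; norm_num) (by simp)
      refine h3.trans ?_
      have h5 : Real.exp (-(9 / 10 * a)) ≤ 1 := Real.exp_le_one_iff.2 (by linarith)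
      calc ‖F 1‖ * Real.exp (-(9 / 10 * a)) ≤ ‖F 1‖ * 1 :=
            mul_le_mul_of_nonneg_left h5 (norm_nonneg _)
        _ ≤ _ := by rw [mul_one]; exact h4

/-- lower bound for the derivative at `3` -/
lemma low {η0 : ℝ} (hB : ∀ (n : ℕ) (p : ℂ) (F : ℂ → ℂ), 1 ≤ n →
    (∀ w ∈ Metric.ball p (3 / 2), DifferentiableAt ℂ F w ∧ F w ≠ 0 ∧ ‖logDeriv F w - n‖ ≤ η0 * n) →
    (n.factorial : ℝ) * ‖F p‖ ≤ 2 * ‖iteratedDeriv n F p‖) {a η : ℝ} (hη : η ≤ η0) (n : ℕ) (F : ℂ → ℂ)
    (ha : 1 ≤ a) (hn : (n : ℝ) ≤ a) (h : NN a η F) :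
    (n.factorial : ℝ) * ‖F 3‖ ≤ 2 * ‖iteratedDeriv n F 3‖ := by
  rcases Nat.eq_zero_or_pos n with h0 | h0
  · subst h0
    rw [iteratedDeriv_zero, Nat.factorial_zero, Nat.cast_one, one_mul]
    have := norm_nonneg (F 3)
    linarith
  · obtain ⟨q, hq⟩ : ∃ q : ℝ, q = n / a := ⟨_, rfl⟩
    have hn0 : (0 : ℝ) < n := by exact_mod_cast h0
    have hq0 : 0 < q := by rw [hq]; positivity
    have hq1 : q ≤ 1 := by rw [hq, div_le_one (by linarith)]; exact hn
    have hqa : q * a = n := by rw [hq]; field_simp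
    have hqac : (q : ℂ) * a = n := by exact_mod_cast hqa
    have hqn : ‖(q : ℂ)‖ = q := by rw [Complex.norm_real, Real.norm_of_nonneg hq0.le]
    have h1 := hB n 0 (fun w => F (3 + (q : ℂ) * w)) h0 ?_
    · rw [iter_affine h.diff] at h1
      simp only [mul_zero, add_zero] at h1
      refine h1.trans ?_
      rw [norm_mul, norm_pow, hqn]
      have h2 : q ^ n ≤ 1 := pow_le_one₀ hq0.le hq1
      have h3 := norm_nonneg (iteratedDeriv n F 3)
      nlinarith
    · intro w hw
      rw [Metric.mem_ball, dist_zero_right] at hw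
      have h2 : |w.re| ≤ ‖w‖ := Complex.abs_re_le_norm w
      have h3 := abs_le.1 (h2.trans hw.le)
      have h4 : 1 / 1000 ≤ (3 + (q : ℂ) * w).re := by
        have : (3 + (q : ℂ) * w).re = 3 + q * w.re := by simp
        rw [this]
        nlinarith
      have h5 : ‖3 + (q : ℂ) * w‖ ≤ 20 := by
        refine (norm_add_le _ _).trans ?_
        rw [norm_mul, hqn]
        have h3 : ‖(3 : ℂ)‖ = 3 := by simp
        rw [h3]
        have := norm_nonneg w
        nlinarith
      obtain ⟨h6, h7⟩ := h.far _ h4 h5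
      have hl : HasDerivAt (fun w : ℂ => 3 + (q : ℂ) * w) q w := by
        have := ((hasDerivAt_id w).const_mul (q : ℂ)).const_add 3
        exact this.congr_deriv (mul_one _)
      refine ⟨(h.diff _).comp w hl.differentiableAt, h6, ?_⟩
      have h8 : logDeriv (fun w => F (3 + (q : ℂ) * w)) w =
          (q : ℂ) * logDeriv F (3 + (q : ℂ) * w) := by
        rw [logDeriv_apply, logDeriv_apply]
        have := ((h.diff _).hasDerivAt.comp w hl).deriv
        have h9 : deriv (fun w => F (3 + (q : ℂ) * w)) w =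
            deriv F (3 + (q : ℂ) * w) * q := this
        rw [h9]
        ring
      rw [h8, ← hqac, ← mul_sub, norm_mul, hqn, ← hqa]
      calc q * ‖logDeriv F (3 + (q : ℂ) * w) - a‖ ≤ q * (η * a) :=
            mul_le_mul_of_nonneg_left h7 hq0.le
        _ ≤ q * (η0 * a) := by
            refine mul_le_mul_of_nonneg_left (mul_le_mul_of_nonneg_right hη (by linarith)) hq0.le
        _ = _ := by ring

theorem scount (h : SB2) : SCount := by
  obtain ⟨η0, hη0, hB⟩ := h
  refine ⟨min η0 1, 350, lt_min hη0 one_pos, by norm_num, ?_⟩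
  intro a r t0 n f ha hn hr hf hN S hS
  have ha0 : (0 : ℝ) ≤ a := by linarith
  obtain ⟨F, hF⟩ : ∃ F : ℂ → ℂ, F = fun z => f (I * t0 + r * z) := ⟨_, rfl⟩
  rw [← hF] at hN
  have hlow := low hB (min_le_left _ _) n F ha hn hN
  have hbig := big ha0 (min_le_right _ _) hN
  have hF3 : F 3 ≠ 0 := (hN.far 3 (by norm_num) (by simp; norm_num)).1
  have hF3' : 0 < ‖F 3‖ := norm_pos_iff.2 hF3
  have hrc : (r : ℂ) ≠ 0 := by exact_mod_cast hr.ne'
  have hiter : ∀ z, iteratedDeriv n F z = (r : ℂ) ^ n * iteratedDeriv n f (I * t0 + r * z) := by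
    intro z
    rw [hF, iter_affine hf]
  have hder : ∀ z : ℂ, ‖z‖ ≤ 13 →
      ‖iteratedDeriv n F z‖ ≤ n.factorial * (‖F 3‖ * Real.exp (34 * a)) := by
    intro z hz
    have := Complex.norm_iteratedDeriv_le_of_forall_mem_sphere_norm_le (n := n) (c := z) (R := 1)
      (C := ‖F 3‖ * Real.exp (34 * a)) (f := F) one_pos hN.diff.diffContOnCl ?_
    · simpa using this
    · intro u hu
      rw [mem_sphere_iff_norm] at hu
      apply hbig
      calc ‖u‖ = ‖(u - z) + z‖ := by rw [sub_add_cancel]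
        _ ≤ _ := norm_add_le _ _
        _ ≤ 14 := by rw [hu]; linarith
  have hrn : 0 < r ^ n := by positivity
  have hnorm : ∀ z, ‖iteratedDeriv n F z‖ = r ^ n * ‖iteratedDeriv n f (I * t0 + r * z)‖ := by
    intro z
    rw [hiter, norm_mul, norm_pow, Complex.norm_real, Real.norm_of_nonneg hr.le]
  have hpt : ∀ s : ℂ, I * t0 + r * ((s - I * t0) / r) = s := by
    intro s
    rw [mul_div_cancel₀ _ hrc]
    ring
  have hc : iteratedDeriv n f (I * t0 + r * 3) ≠ 0 := by
    intro h0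
    have h1 := hnorm 3
    rw [h0, norm_zero, mul_zero] at h1
    rw [h1, mul_zero] at hlow
    have : 0 < (n.factorial : ℝ) * ‖F 3‖ := by positivity
    linarith
  have hj := Pool.Agent.W186.LH.jc (diff_iter hf n) (c := I * t0 + r * 3) (r := 9 * r) (R := 10 * r)
    (M := n.factorial * (‖F 3‖ * Real.exp (34 * a)) / r ^ n) (by positivity) (by linarith) ?_ hc S ?_
  · have e1 : 10 * r / (9 * r) = 10 / 9 := by field_simp
    rw [e1, le_div_iff₀ hrn] at hj
    have h3 := hnorm 3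
    obtain ⟨N, hNN⟩ : ∃ N : ℕ, N = ∑ z ∈ S, analyticOrderNatAt (iteratedDeriv n f) z := ⟨_, rfl⟩
    rw [← hNN] at hj
    have hNc : ∑ s ∈ S, (analyticOrderNatAt (iteratedDeriv n f) s : ℝ) = N := by
      rw [hNN]; push_cast; rfl
    rw [hNc]
    have hp : 0 < (10 / 9 : ℝ) ^ N := by positivity
    have h4 : (10 / 9 : ℝ) ^ N * ((n.factorial : ℝ) * ‖F 3‖) ≤
        2 * (n.factorial * (‖F 3‖ * Real.exp (34 * a))) := by
      calc (10 / 9 : ℝ) ^ N * ((n.factorial : ℝ) * ‖F 3‖) ≤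
          (10 / 9 : ℝ) ^ N * (2 * ‖iteratedDeriv n F 3‖) := mul_le_mul_of_nonneg_left hlow hp.le
        _ = 2 * ((10 / 9 : ℝ) ^ N * ‖iteratedDeriv n f (I * t0 + r * 3)‖ * r ^ n) := by
            rw [h3]; ring
        _ ≤ _ := by linarith
    have h5 : (10 / 9 : ℝ) ^ N ≤ 2 * Real.exp (34 * a) := by
      have h6 : 0 < (n.factorial : ℝ) * ‖F 3‖ := by positivity
      refine le_of_mul_le_mul_right (h4.trans (le_of_eq ?_)) h6
      ring
    have h7 : (10 / 9 : ℝ) ^ N ≤ Real.exp (35 * a) := by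
      refine h5.trans ?_
      have h8 : (2 : ℝ) ≤ Real.exp a := by
        have := Real.add_one_le_exp a
        linarith
      calc 2 * Real.exp (34 * a) ≤ Real.exp a * Real.exp (34 * a) :=
            mul_le_mul_of_nonneg_right h8 (Real.exp_pos _).le
        _ = _ := by rw [← Real.exp_add]; congr 1; ring
    have h9 := Real.log_le_log hp h7
    rw [Real.log_exp, Real.log_pow] at h9
    have h10 : (1 : ℝ) / 10 ≤ Real.log (10 / 9) := by
      have := Real.one_sub_inv_le_log_of_pos (show (0 : ℝ) < 10 / 9 by norm_num)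
      norm_num at this ⊢
      linarith
    have h11 : 0 ≤ (N : ℝ) := Nat.cast_nonneg _
    nlinarith
  · intro s hs
    rw [mem_sphere_iff_norm] at hs
    rw [le_div_iff₀ hrn]
    have h1 := hder ((s - I * t0) / r) ?_
    · rw [hnorm, hpt] at h1
      linarith
    · have e : (s - I * t0) / r = (s - (I * t0 + r * 3)) / r + 3 := by
        field_simp
        ring
      rw [e]
      refine (norm_add_le _ _).trans ?_
      rw [norm_div, hs, Complex.norm_real, Real.norm_of_nonneg hr.le, mul_div_assoc,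
        div_self hr.ne']
      simp
      norm_num
  · intro s hs
    obtain ⟨h1, -⟩ := hS s hs
    rw [Metric.mem_closedBall, dist_eq_norm]
    have e : s - (I * t0 + r * 3) = (s - I * t0) - r * 3 := by ring
    rw [e]
    refine (norm_sub_le _ _).trans ?_
    rw [norm_mul, Complex.norm_real, Real.norm_of_nonneg hr.le]
    have h3 : ‖(3 : ℂ)‖ = 3 := by simp
    rw [h3]
    linarith

end Pool.Agent.W32.SD
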