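import Pool.Agent.H24R2.DZ.Spec
import Pool.Agent.H581R3.GPR.Rot

set_option autoImplicit false

/-! Mellin transform of `GF`. -/

namespace Pool.Agent.W32.SD

open Complex Filter Topology MeasureTheory Set
open Pool.Agent.H24R2.DZ

lemma piece (δ : ℝ) (s : ℂ) (h1 : IntegrableOn (fun x : ℝ => ff (ray δ x) * (x : ℂ) ^ (s - 1)) (Ioi 0))
    (h : ℕ) (hh : 1 ≤ h) :
    IntegrableOn (fun x : ℝ => ff (h * ray δ x) * (x : ℂ) ^ (s - 1)) (Ioi 0) ∧
      ∫ x in Ioi (0 : ℝ), ff (h * ray δ x) * (x : ℂ) ^ (s - 1) =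
        (h : ℂ) ^ (-s) * ∫ x in Ioi (0 : ℝ), ff (ray δ x) * (x : ℂ) ^ (s - 1) := by
  have hp : (0 : ℝ) < h := by exact_mod_cast hh
  have hc : (h : ℂ) ≠ 0 := by
    have := hp.ne'
    exact_mod_cast this
  have e : ∀ x ∈ Ioi (0 : ℝ), (h : ℂ) ^ (1 - s) * (ff (ray δ (h * x)) * ((h * x : ℝ) : ℂ) ^ (s - 1)) =
      ff (h * ray δ x) * (x : ℂ) ^ (s - 1) := by
    intro x hx
    have hx0 : (0 : ℝ) < x := hx
    have e1 : ray δ (h * x) = h * ray δ x := by
      unfold ray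
      push_cast
      ring
    have e2 : ((h * x : ℝ) : ℂ) ^ (s - 1) = (h : ℂ) ^ (s - 1) * (x : ℂ) ^ (s - 1) := by
      have := mul_cpow_ofReal_nonneg hp.le hx0.le (s - 1)
      push_cast at this ⊢
      exact this
    have e3 : (h : ℂ) ^ (1 - s) * (h : ℂ) ^ (s - 1) = 1 := by
      rw [← cpow_add _ _ hc]
      simp
    rw [e1, e2]
    calc _ = ((h : ℂ) ^ (1 - s) * (h : ℂ) ^ (s - 1)) * (ff (h * ray δ x) * (x : ℂ) ^ (s - 1)) := by
          ring
      _ = _ := by rw [e3, one_mul]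
  have hi : IntegrableOn (fun x : ℝ => ff (ray δ (h * x)) * ((h * x : ℝ) : ℂ) ^ (s - 1)) (Ioi 0) := by
    have := (integrableOn_Ioi_comp_mul_left_iff
      (fun x : ℝ => ff (ray δ x) * (x : ℂ) ^ (s - 1)) 0 hp).2 (by rw [mul_zero]; exact h1)
    exact this
  refine ⟨?_, ?_⟩
  · refine IntegrableOn.congr_fun (hi.const_mul ((h : ℂ) ^ (1 - s))) e measurableSet_Ioi
  · rw [← setIntegral_congr_fun measurableSet_Ioi e, integral_const_mul]
    have h3 := integral_comp_mul_left_Ioi (fun x : ℝ => ff (ray δ x) * (x : ℂ) ^ (s - 1)) 0 hp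
    rw [mul_zero] at h3
    rw [h3]
    have e4 : (h : ℂ) ^ (-s) = (h : ℂ) ^ (1 - s) * (h : ℂ)⁻¹ := by
      rw [← cpow_neg_one, ← cpow_add _ _ hc]
      congr 1
      ring
    rw [e4, real_smul]
    push_cast
    ring

theorem smelG (h : SMel) : SMelG := by
  intro δ σ t y b hδ hδ2 hσ hσ1
  obtain ⟨h1, h2⟩ := h δ σ t hδ hδ2 hσ hσ1
  set s : ℂ := (σ : ℂ) + t * I with hs
  have hsre : s.re = σ := by simp [hs]
  set θ : ℝ := Real.pi / 2 - δ with hθ
  have hre : 0 < (cexp (I * (θ : ℂ))).re := by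
    rw [mul_comm, Complex.exp_ofReal_mul_I_re]
    exact Real.cos_pos_of_mem_Ioo ⟨by rw [hθ]; linarith, by rw [hθ]; linarith⟩
  -- the exponential
  have hexp : ∀ x : ℝ, (x : ℂ) ^ (s - 1) * cexp (-(cexp (I * (θ : ℂ)) * x)) =
      cexp (-ray δ x) * (x : ℂ) ^ (s - 1) := by
    intro x
    unfold ray
    rw [mul_comm (x : ℂ) (cexp _), mul_comm]
  have i2 : IntegrableOn (fun x : ℝ => cexp (-ray δ x) * (x : ℂ) ^ (s - 1)) (Ioi 0) := by
    have : IntegrableOn (fun x : ℝ => (x : ℂ) ^ (s - 1) * cexp (-(cexp (I * (θ : ℂ)) * x)))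
        (Ioi 0) := by
      refine Integrable.mono' (Pool.Agent.H581R3.GPR.Rot.int_rpow_exp (s := s.re - 1)
        (b := (cexp (I * (θ : ℂ))).re) (by linarith) hre)
        (Pool.Agent.H581R3.GPR.Rot.cpow_exp_meas s _) ?_
      refine (ae_restrict_iff' measurableSet_Ioi).2 (Eventually.of_forall fun t ht => ?_)
      have ht0 : (0:ℝ) < t := ht
      rw [norm_mul, Complex.norm_cpow_eq_rpow_re_of_pos ht0, Complex.norm_exp]
      simp
    refine this.congr_fun (fun x _ => hexp x) measurableSet_Ioi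
  have v2 : ∫ x in Ioi (0 : ℝ), cexp (-ray δ x) * (x : ℂ) ^ (s - 1) =
      cexp (-(I * (θ : ℂ)) * s) * Complex.Gamma s := by
    rw [← setIntegral_congr_fun measurableSet_Ioi (fun x _ => hexp x),
      Pool.Agent.H581R3.GPR.Rot.rot_formula (by rw [hsre]; exact hσ) hre]
    congr 1
    rw [one_div, ← Complex.exp_neg, Complex.cpow_def_of_ne_zero (Complex.exp_ne_zero _),
      Complex.log_exp]
    · simp only [neg_im, mul_im, I_re, I_im, ofReal_re, ofReal_im, zero_mul, one_mul, zero_add]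
      rw [hθ]; linarith [Real.pi_pos]
    · simp only [neg_im, mul_im, I_re, I_im, ofReal_re, ofReal_im, zero_mul, one_mul, zero_add]
      rw [hθ]; linarith [Real.pi_pos]
  have hG : ∀ x : ℝ, GF y b (ray δ x) * (x : ℂ) ^ (s - 1) =
      (∑ h ∈ Finset.Icc 1 y, b h * (ff (h * ray δ x) * (x : ℂ) ^ (s - 1))) -
        b 1 * (cexp (-ray δ x) * (x : ℂ) ^ (s - 1)) := by
    intro x
    unfold GF
    rw [sub_mul, Finset.sum_mul, mul_assoc]
    congr 1
    exact Finset.sum_congr rfl fun h _ => mul_assoc _ _ _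
  have i1 : ∀ h ∈ Finset.Icc 1 y,
      IntegrableOn (fun x : ℝ => b h * (ff (h * ray δ x) * (x : ℂ) ^ (s - 1))) (Ioi 0) :=
    fun h hh => ((piece δ s h1 h (Finset.mem_Icc.1 hh).1).1).const_mul _
  have i3 : IntegrableOn (fun x : ℝ => ∑ h ∈ Finset.Icc 1 y,
      b h * (ff (h * ray δ x) * (x : ℂ) ^ (s - 1))) (Ioi 0) := by
    have := integrable_finset_sum _ i1
    exact this
  simp only [hG]
  refine ⟨i3.sub (i2.const_mul _), ?_⟩
  rw [integral_sub i3 (i2.const_mul _), integral_finset_sum _ i1, integral_const_mul, v2]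
  have e1 : ∀ h ∈ Finset.Icc 1 y, ∫ x in Ioi (0 : ℝ), b h * (ff (h * ray δ x) * (x : ℂ) ^ (s - 1)) =
      (b h * (h : ℂ) ^ (-s)) * (cexp (-(I * (θ : ℂ)) * s) * Complex.Gamma s * riemannZeta s) := by
    intro h hh
    rw [integral_const_mul, (piece δ s h1 h (Finset.mem_Icc.1 hh).1).2, h2]
    ring
  rw [Finset.sum_congr rfl e1, ← Finset.sum_mul]
  unfold MM
  ring

end Pool.Agent.W32.SD
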